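import Mathlib
import Pool.Agent.H55.FreeV3

namespace Pool.Agent.Results.MP_7b06ad_gt.KFourAll

open Pool.Agent.H55.FreeV TopologicalSpace

/-- For metrizable `X`, if `sp_4(X)` is a `k`-space then so is every `sp_n(X)`. -/
theorem result (X V : Type) [TopologicalSpace X] [MetrizableSpace X] [AddCommGroup V] [Module ℝ V]
    [TopologicalSpace V] [IsTopologicalAddGroup V] [ContinuousSMul ℝ V] [T2Space V]
    (i : X → V) (hi : IsFreeTVS i) (h : CompactlyCoherentSpace (sp i 4)) (n : ℕ) :
    CompactlyCoherentSpace (sp i n) := by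
  let _ := metrizableSpaceMetric X
  have := sep_of_k hi 2 h
  have := lc_of_k hi 2 h
  exact k_of_lc hi n

end Pool.Agent.Results.MP_7b06ad_gt.KFourAll
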